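import Pool.Agent.Lib.PowerFree.OneSidedComp

/-!
One-sided extendability of `α`-power-free words is decidable for every rational `α > 2` over every
alphabet that does not have exactly two letters, and for every rational `α > 3` over all alphabets.
-/

set_option autoImplicit false

namespace Pool.Agent.Results.MP_efc42c_co.OneSidedLargeExponent

open Pool.Agent.PowerFree

theorem result (k : ℕ) (α : ℚ) (h : (2 < α ∧ k ≠ 2) ∨ 3 < α) :
    ComputablePred (fun u : List (Fin k) =>
      Set.Infinite {x : List (Fin k) | u <+: x ∧
        ∀ w : List (Fin k), w <:+: x → ∀ p : ℕ, 0 < p →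
          (∀ i : ℕ, i + p < w.length → w[i]? = w[i + p]?) →
          (w.length : ℚ) < α * (p : ℚ)}) ∧
    ComputablePred (fun u : List (Fin k) =>
      Set.Infinite {x : List (Fin k) | u <:+ x ∧
        ∀ w : List (Fin k), w <:+: x → ∀ p : ℕ, 0 < p →
          (∀ i : ℕ, i + p < w.length → w[i]? = w[i + p]?) →
          (w.length : ℚ) < α * (p : ℚ)}) := by
  have hα : 1 < α := by rcases h with h | h <;> linarith [h]
  obtain ⟨B, C, hB, hC, hBC⟩ := exists_BC hα
  have hBq : (0 : ℚ) < B := by exact_mod_cast hB
  have hlt : B < C := by
    have h2 : 2 < α := by rcases h with h | h <;> linarith [h]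
    have h3 : 1 < (C : ℚ) / B := by rw [hBC] at h2; linarith
    rw [lt_div_iff₀ hBq, one_mul] at h3
    exact_mod_cast h3
  have hk : k ≠ 2 ∨ 2 * B < C := by
    rcases h with h | h
    · exact Or.inl h.2
    · right
      have h3 : 2 < (C : ℚ) / B := by rw [hBC] at h; linarith
      rw [lt_div_iff₀ hBq] at h3
      exact_mod_cast h3
  have hR := rightExt_computable (k := k) hB hlt hk
  have hrev : Computable (List.reverse : List (Fin k) → List (Fin k)) :=
    Primrec.list_reverse.to_comp
  refine ⟨?_, ?_⟩
  · refine hR.of_eq (fun u => ?_)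
    have h1 : RightExt B C u ↔ LeftExt B C u.reverse := by
      rw [← rightExt_reverse_iff, List.reverse_reverse]
    exact h1.trans (right_iff hB hC hBC u).symm
  · refine (computablePred_comp hR hrev).of_eq (fun u => ?_)
    exact rightExt_reverse_iff.trans (left_iff hB hC hBC u).symm

end Pool.Agent.Results.MP_efc42c_co.OneSidedLargeExponent
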